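import Pool.Agent.Lib.MP_9c49f6_co.P_ALL
import Pool.Agent.Lib.MP_9c49f6_co.S_ROT
import Pool.Agent.Lib.MP_9c49f6_co.S_FINr
import Pool.Agent.Lib.MP_9c49f6_co.Z_ALL

set_option autoImplicit false

namespace Pool.Agent.Results.MP_9c49f6_co.IntFaces

open MJ

/-- The hypothesis `IsMac` below is satisfied by exactly one family. -/
theorem existsUnique_isMac {F : Type} [Field F] [CharZero F] (b γ : F)
    (hbγ : AlgebraicIndependent ℚ ![b, γ]) (n : ℕ) :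
    ∃! P : n.Partition → n.Partition → F, IsMac (1 + γ * (1 + b)) (1 + γ) P :=
  have hi := indep hbγ (ib := 0) (ig := 1) (by decide)
  ⟨mac hi, isMac_mac hi, fun _ h => h.eq_mac hi⟩

theorem result {F : Type} [Field F] [CharZero F] (b γ : F)
    (hbγ : AlgebraicIndependent ℚ ![b, γ]) (n : ℕ) (_hn : 1 ≤ n)
    (P : n.Partition → n.Partition → F) (hP : IsMac (1 + γ * (1 + b)) (1 + γ) P)
    (π μ ν : n.Partition) (d : ℤ)
    (hd : d = (n : ℤ) + (min π.parts.card (min μ.parts.card ν.parts.card) : ℕ)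
      - μ.parts.card - ν.parts.card) :
    ∃ N : MvPolynomial (Fin 2) ℤ,
      (zz μ : F) * zz ν * (1 + γ) ^ (n * (n - 1)) * cco (1 + γ * (1 + b)) (1 + γ) P π μ ν =
        MvPolynomial.aeval ![b, γ] N ∧
      ∀ m : Fin 2 →₀ ℕ, ((m 0 : ℤ) - m 1 > d → N.coeff m = 0) ∧
        ((m 0 : ℤ) - m 1 ≥ d - 1 ∨ m 0 = 0 → 0 ≤ N.coeff m) := by
  have hi : Indep (1 + γ * (1 + b)) (1 + γ) := indep hbγ (ib := 0) (ig := 1) (by decide)
  obtain rfl := hP.eq_mac hi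
  obtain ⟨N, h1, h2⟩ := MJP.facesD MJP.poly_all MJP.st_TRANS MJP.lim_all MJP.asm_all MJP.main_all
    MJS.mainr hbγ hi π μ ν d hd
  exact ⟨N, h1, fun m => ⟨(h2 m).1, fun h =>
    h.elim (h2 m).2 (MJZ.col_all F b γ hbγ hi n π μ ν N h1 m)⟩⟩

end Pool.Agent.Results.MP_9c49f6_co.IntFaces
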