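import Pool.Agent.Lib.MP_9c49f6_co.Eight

set_option autoImplicit false

namespace Pool.Agent.Results.MP_9c49f6_co.LargePart

open MJ Finset

/-- The hypothesis `IsMac` below is satisfied by exactly one family. -/
theorem existsUnique_isMac {F : Type} [Field F] [CharZero F] (b γ : F)
    (hbγ : AlgebraicIndependent ℚ ![b, γ]) (n : ℕ) :
    ∃! P : n.Partition → n.Partition → F, IsMac (1 + γ * (1 + b)) (1 + γ) P :=
  have hi := indep hbγ (ib := 0) (ig := 1) (by decide)
  ⟨mac hi, isMac_mac hi, fun _ h => h.eq_mac hi⟩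

theorem result {F : Type} [Field F] [CharZero F] (b γ : F)
    (hbγ : AlgebraicIndependent ℚ ![b, γ]) (n : ℕ) (hn : 1 ≤ n)
    (P : n.Partition → n.Partition → F) (hP : IsMac (1 + γ * (1 + b)) (1 + γ) P)
    (π μ ν : n.Partition) (h : ∃ k ∈ π.parts + μ.parts + ν.parts, n - 2 ≤ k) :
    ∃ N : MvPolynomial (Fin 2) ℕ,
      (zz μ : F) * zz ν * (1 + γ) ^ (n * (n - 1)) * cco (1 + γ * (1 + b)) (1 + γ) P π μ ν =
        MvPolynomial.aeval ![b, γ] N := by
  have hi : Indep (1 + γ * (1 + b)) (1 + γ) := indep hbγ (ib := 0) (ig := 1) (by decide)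
  obtain rfl := hP.eq_mac hi
  have third : ∀ π μ ν : n.Partition, ∀ k ∈ ν.parts, n - 2 ≤ k → ∃ N : MvPolynomial (Fin 2) ℕ,
      (zz μ : F) * zz ν * (1 + γ) ^ (n * (n - 1)) * cco (1 + γ * (1 + b)) (1 + γ) (mac hi) π μ ν =
        MvPolynomial.aeval ![b, γ] N := by
    intro π μ ν k hk h
    rcases le_or_gt n (k + 1) with h1 | h1
    · rcases One22.big_part ν hk h1 with rfl | ⟨j, rfl, hj⟩
      · obtain ⟨N, hN⟩ := One22.nat_t hbγ (ib := 0) (ig := 1) (by decide) hn π μ
        refine ⟨N, ?_⟩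
        have h1 := One22.cco_one hi hn rfl π μ
        rw [← hN]
        change _ = zz μ * (1 + γ) ^ (n * (n - 1)) * (qi (1 + γ) n * MvPolynomial.coeff _
          (One22.GG hi γ _))
        rw [← h1]; ring
      · exact One22.nat_t2 hbγ (ib := 0) (ig := 1) (by decide) π μ ν hj
    · obtain ⟨j, rfl, hj⟩ := Two22.big_part2 ν hk (by omega)
      obtain ⟨a, a', ha, ha'⟩ := Two22.exists_shapes j
      rcases hj with hj | hj
      · exact (Two22.nat_t3 hbγ (ib := 0) (ig := 1) (by decide) π μ ν a' hj ha').1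
      · exact (Two22.nat_t3 hbγ (ib := 0) (ig := 1) (by decide) π μ a ν ha hj).2
  obtain ⟨k, hk, h⟩ := h
  rcases Multiset.mem_add.mp hk with hk | hk
  · rcases Multiset.mem_add.mp hk with hk | hk
    · rcases le_or_gt n (k + 1) with h1 | h1
      · rcases One22.big_part π hk h1 with rfl | ⟨j, rfl, hj⟩
        · obtain ⟨N, hN⟩ := One22.nat_q hbγ (ib := 0) (ig := 1) (by decide) hn μ ν
          exact ⟨N, by rw [One22.cco_top hi hn rfl]; exact hN⟩
        · exact One22.nat_q2 hbγ (ib := 0) (ig := 1) (by decide) π μ ν hj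
      · obtain ⟨j, rfl, hj⟩ := Two22.big_part2 π hk (by omega)
        obtain ⟨a, a', ha, ha'⟩ := Two22.exists_shapes j
        rcases hj with hj | hj
        · exact (Two22.nat_q3 hbγ (ib := 0) (ig := 1) (by decide) μ ν π a' hj ha').1
        · exact (Two22.nat_q3 hbγ (ib := 0) (ig := 1) (by decide) μ ν a π ha hj).2
    · rw [One22.cco_swap, mul_comm (zz μ : F)]
      exact third π ν μ k hk h
  · exact third π μ ν k hk h

end Pool.Agent.Results.MP_9c49f6_co.LargePart
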