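import Pool.Agent.Lib.MP_9c49f6_co.JB_ALL

set_option autoImplicit false

namespace Pool.Agent.Results.MP_9c49f6_co.LowDefect

open MJ

/-- The hypothesis `IsJack` below is satisfied by exactly one family. -/
theorem existsUnique_isJack {F : Type} [Field F] [CharZero F] (b : F) (hb : Transcendental ℚ b)
    (n : ℕ) : ∃! J : n.Partition → n.Partition → F, IsJack (1 + b) J :=
  (MJB.main F b hb n).1

theorem result {F : Type} [Field F] [CharZero F] (b : F) (hb : Transcendental ℚ b) (n : ℕ)
    (J : n.Partition → n.Partition → F) (hJ : IsJack (1 + b) J) (π μ ν : n.Partition)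
    (h : n + 2 * min (len π) (min (len μ) (len ν)) ≤ len π + len μ + len ν + 4) :
    ∃ Q : Polynomial ℚ, cJ (1 + b) J π μ ν = Polynomial.aeval b Q ∧ ∀ k, 0 ≤ Q.coeff k := by
  obtain ⟨Q, h0, -, -, h3⟩ := (MJB.main F b hb n).2 J hJ π μ ν
  exact ⟨Q, h0, h3 h⟩

end Pool.Agent.Results.MP_9c49f6_co.LowDefect
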