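import Pool.Agent.Lib.MP_9c49f6_co.Final

set_option autoImplicit false

namespace Pool.Agent.Results.MP_9c49f6_co.Marginal

open MJ Finset

/-- The hypothesis `IsMac` below is satisfied by exactly one family. -/
theorem existsUnique_isMac {F : Type} [Field F] [CharZero F] (b γ w : F)
    (h : AlgebraicIndependent ℚ ![b, γ, w]) (n : ℕ) :
    ∃! P : n.Partition → n.Partition → F, IsMac (1 + γ * (1 + b)) (1 + γ) P :=
  have hi := indep h (ib := 0) (ig := 1) (by decide)
  ⟨mac hi, isMac_mac hi, fun _ h => h.eq_mac hi⟩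

theorem result {F : Type} [Field F] [CharZero F] (b γ w : F)
    (h : AlgebraicIndependent ℚ ![b, γ, w]) (n : ℕ) (hn : 1 ≤ n)
    (P : n.Partition → n.Partition → F) (hP : IsMac (1 + γ * (1 + b)) (1 + γ) P)
    (π μ : n.Partition) :
    ∃ N : MvPolynomial (Fin 3) ℕ,
      (π.parts.map fun i => ∑ j ∈ range i, (1 + γ) ^ j).prod *
        ((zz μ : F) * (1 + γ) ^ (n * (n - 1)) *
          ∑ ν : n.Partition, cco (1 + γ * (1 + b)) (1 + γ) P π μ ν *
            (ν.parts.map fun i => (1 - (1 + γ * w) ^ i) / (1 - (1 + γ) ^ i)).prod) =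
      (μ.parts.map fun i => ∑ j ∈ range i, (1 + γ) ^ j).prod * MvPolynomial.aeval ![b, γ, w] N := by
  have hi : Indep (1 + γ * (1 + b)) (1 + γ) := indep h (ib := 0) (ig := 1) (by decide)
  obtain rfl := hP.eq_mac hi
  obtain ⟨N, h1⟩ := main_nat h (ib := 0) (ig := 1) (by decide) (X_NN 2) (X_ZZ 2) hn π μ
  have h3 := cco_sum hi hn _ _ _ (Jc_marg hi hn rfl w) π μ
  simp only [MvPolynomial.aeval_X, Matrix.cons_val_zero, Matrix.cons_val_one, Matrix.cons_val]
    at h1
  refine ⟨MvPolynomial.X 2 * N, ?_⟩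
  rw [h3, map_mul, MvPolynomial.aeval_X]
  change (π.parts.map (qi (1 + γ))).prod * _ = (μ.parts.map (qi (1 + γ))).prod * (w * _)
  linear_combination w * h1

end Pool.Agent.Results.MP_9c49f6_co.Marginal
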